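import Pool.Agent.MP_9210c2_an.H51.Log

namespace Pool.Agent.Results.MP_9210c2_an.BallOrder

open Pool.Agent.MP_9210c2_an

theorem result (n : ℕ) (hn : 1 ≤ n) :
    (∀ d : ℝ, 0 < d →
      ENNReal.ofReal d ≤ packDensity (Metric.ball (0 : EuclideanSpace ℝ (Fin n)) 1) →
      ENNReal.ofReal (d / min (176 * (n : ℝ)) (704 * Real.log (2 + 2 ^ n * d))) ≤
        covConst (Metric.ball (0 : EuclideanSpace ℝ (Fin n)) 1)) ∧
      covConst (Metric.ball (0 : EuclideanSpace ℝ (Fin n)) 1) ≤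
        packDensity (Metric.ball (0 : EuclideanSpace ℝ (Fin n)) 1) :=
  ⟨h51_ball_min hn, covConst_le_packDensity⟩

end Pool.Agent.Results.MP_9210c2_an.BallOrder
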