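import Pool.Agent.MP_9210c2_an.Cube

namespace Pool.Agent.Results.MP_9210c2_an.CubeLower

open Pool.Agent.MP_9210c2_an
open scoped ENNReal

theorem result (n : ℕ) (hn : 1 ≤ n) :
    (800 * (n : ℝ≥0∞) * ((Nat.log 2 (Nat.log 2 n) : ℝ≥0∞) + 1) ^ 2)⁻¹ ≤ covConst (cube n) :=
  cube_lower hn

end Pool.Agent.Results.MP_9210c2_an.CubeLower
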