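import Pool.Agent.MP_9210c2_an.H87.Main

namespace Pool.Agent.Results.MP_9210c2_an.CubeUpperLog

open Pool.Agent.MP_9210c2_an

theorem result (n : ℕ) (hn : 2 ≤ n) :
    covConst (cube n) ≤ ENNReal.ofReal (2 ^ 64 * Real.log n ^ 8 / n) :=
  H87.cube_upper hn

end Pool.Agent.Results.MP_9210c2_an.CubeUpperLog
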