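import Pool.Agent.MP_9210c2_an.H51.Log

namespace Pool.Agent.Results.MP_9210c2_an.PackingDensity

open Pool.Agent.MP_9210c2_an

theorem result (n : ℕ) (hn : 1 ≤ n) (K : Set (EuclideanSpace ℝ (Fin n))) (hne : K.Nonempty)
    (hopen : IsOpen K) (hbdd : Bornology.IsBounded K) (hconv : Convex ℝ K)
    (hsymm : ∀ x ∈ K, -x ∈ K) :
    (∀ d : ℝ, 0 < d → ENNReal.ofReal d ≤ packDensity K →
      ENNReal.ofReal (d / min (210 * (n : ℝ) * Real.log (n + 1)) (600 * Real.log (2 + 2 ^ n * d) *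
        Real.log (3 + n / (1 + Real.log d⁻¹)))) ≤ covConst K) ∧
      covConst K ≤ packDensity K :=
  ⟨Good.h51_general_min ⟨hopen, hbdd, hconv, hsymm, hne⟩ hn, covConst_le_packDensity⟩

end Pool.Agent.Results.MP_9210c2_an.PackingDensity
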